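import Mathlib

/-!
# A complete pseudo-Pick pair of kernels on three points whose quotient is not a kernel
-/

open scoped InnerProductSpace ComplexOrder
open ContinuousLinearMap

namespace Pool.Agent.Results.MP_cbd977_an.ThreePoints

/-- The Hilbert space `ℂⁿ`. -/
abbrev V (n : ℕ) := EuclideanSpace ℂ (Fin n)

/-- `k` is a (positive semidefinite) reproducing kernel on `X`. -/
def IsKernel {X : Type} (k : X → X → ℂ) : Prop :=
  ∀ (m : ℕ) (z : Fin m → X), (Matrix.of fun i j => k (z i) (z j)).PosSemidef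

/-- For a Hilbert space `E` (below `E = ℂⁿ`), `Φ` is a contractive multiplier of `H_l ⊗ E`: for
the Hilbert space `H` of `E`-valued functions on `X` with reproducing kernel `l(x, y) I` and every
`F` in `H`, the function `Φ F` belongs to `H` and has norm at most `‖F‖`. -/
def IsContractiveMultiplier {X E : Type} [NormedAddCommGroup E] [InnerProductSpace ℂ E]
    [CompleteSpace E] (l : X → X → ℂ) (Φ : X → E →L[ℂ] E) : Prop :=
  ∀ (H : Type) [NormedAddCommGroup H] [InnerProductSpace ℂ H] [CompleteSpace H]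
    [RKHS ℂ H X E], (∀ x y v, RKHS.kernel H x y v = l x y • v) →
      ∀ F : H, ∃ G : H, (∀ x, G x = Φ x (F x)) ∧ ‖G‖ ≤ ‖F‖

/-- Positivity of the block matrix `[(I - W_i W_j^*) k(z_i, z_j)]` of operators on `E`, written
out as positivity of its quadratic form. -/
def PickPositive {X E : Type} [NormedAddCommGroup E] [InnerProductSpace ℂ E]
    [CompleteSpace E] {n : ℕ} (k : X → X → ℂ) (z : Fin n → X) (W : Fin n → E →L[ℂ] E) : Prop :=
  ∀ v : Fin n → E, 0 ≤ ∑ i, ∑ j, k (z i) (z j) * ⟪v i, v j - W i (adjoint (W j) (v j))⟫_ℂ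

/-- The pair `(k, l)` is complete pseudo-Pick; `n × n` matrices are operators on `ℂⁿ`. -/
def CompletePseudoPick {X : Type} (k l : X → X → ℂ) : Prop :=
  ∀ n : ℕ, 1 ≤ n → ∀ (z : Fin n → X) (W : Fin n → V n →L[ℂ] V n), PickPositive k z W →
    ∃ Φ : X → V n →L[ℂ] V n, IsContractiveMultiplier l Φ ∧ ∀ i, Φ (z i) = W i

section forms

variable {E : Type*} [NormedAddCommGroup E] [InnerProductSpace ℂ E]

/-- real part of the inner product -/
noncomputable def r (a b : E) : ℝ := RCLike.re ⟪a, b⟫_ℂ

lemma r_comm (a b : E) : r a b = r b a := inner_re_symm (𝕜 := ℂ) a b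
lemma r_add_left (a b c : E) : r (a + b) c = r a c + r b c := by simp [r]
lemma r_add_right (a b c : E) : r a (b + c) = r a b + r a c := by simp [r]
lemma r_sub_left (a b c : E) : r (a - b) c = r a c - r b c := by simp [r]
lemma r_sub_right (a b c : E) : r a (b - c) = r a b - r a c := by simp [r]
lemma r_neg_left (a b : E) : r (-a) b = - r a b := by simp [r]
lemma r_neg_right (a b : E) : r a (-b) = - r a b := by simp [r]
lemma r_smul_left (t : ℝ) (a b : E) : r ((t:ℂ) • a) b = t * r a b := by
  simp [r]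
lemma r_smul_right (t : ℝ) (a b : E) : r a ((t:ℂ) • b) = t * r a b := by
  simp [r]
lemma r_zero_left (a : E) : r 0 a = 0 := by simp [r]
lemma r_zero_right (a : E) : r a 0 = 0 := by simp [r]
lemma r_self (a : E) : r a a = ‖a‖ ^ 2 := by
  simp only [r]; exact inner_self_eq_norm_sq (𝕜 := ℂ) a
lemma r_self_nonneg (a : E) : 0 ≤ r a a := by rw [r_self]; positivity

/-- three points -/
lemma three (T0 T1 T2 : E →L[ℂ] E)
    (h : ∀ v0 v1 v2, 0 ≤ (r v0 v0 - r (T0 v0) (T0 v0)) + 4 * (r v1 v1 - r (T1 v1) (T1 v1)) +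
      4 * (r v2 v2 - r (T2 v2) (T2 v2)) + 2 * (r v0 v1 - r (T0 v0) (T1 v1)) +
      2 * (r v0 v2 - r (T0 v0) (T2 v2)) - 4 * (r v1 v2 - r (T1 v1) (T2 v2))) (v0 v1 v2 : E) :
    0 ≤ (r v0 v0 - r (T0 v0) (T0 v0)) + 14 * (r v1 v1 - r (T1 v1) (T1 v1)) +
      14 * (r v2 v2 - r (T2 v2) (T2 v2)) + 2 * (r v0 v1 - r (T0 v0) (T1 v1)) +
      2 * (r v0 v2 - r (T0 v0) (T2 v2)) + 8 * (r v1 v2 - r (T1 v1) (T2 v2)) := by
  have h1 := h v0 v1 v2
  have h2 := h 0 v1 (-v2)
  have h3 := h (v2 - v1) v1 (-v2)
  have h4 := r_self_nonneg (T0 (v2 - v1) + T1 v1 - T2 v2)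
  simp only [map_sub, map_neg, map_zero, r_add_left, r_add_right, r_sub_left, r_sub_right,
    r_neg_left, r_neg_right, r_zero_left, r_zero_right] at h2 h3 h4
  linarith [r_comm v1 v0, r_comm v2 v0, r_comm v2 v1, r_comm (T0 v2) (T0 v1),
    r_comm (T0 v2) (T1 v1), r_comm (T0 v2) (T2 v2), r_comm (T0 v1) (T1 v1),
    r_comm (T0 v1) (T2 v2), r_comm (T1 v1) (T2 v2)]

/-- two points -/
lemma two (T U : E →L[ℂ] E)
    (h : ∀ s u, 0 ≤ (r s s - r (T s) (T s)) + 2 * (r s u - r (T s) (U u)) +
      4 * (r u u - r (U u) (U u))) (a b c : E) :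
    0 ≤ (r a a - r (T a) (T a)) + 14 * (r b b - r (T b) (T b)) +
      14 * (r c c - r (U c) (U c)) + 2 * (r a b - r (T a) (T b)) +
      2 * (r a c - r (T a) (U c)) + 8 * (r b c - r (T b) (U c)) := by
  have h1 := h (a + b) c
  have h2 := h b (((3/13 : ℝ) : ℂ) • c)
  have h3 := h 0 c
  simp only [map_add, map_smul, map_zero, r_add_left, r_add_right, r_smul_left, r_smul_right,
    r_zero_left, r_zero_right] at h1 h2 h3
  linarith [r_comm a b, r_comm (T a) (T b)]

/-- one point -/
lemma one (T : E →L[ℂ] E) (h : ∀ s, 0 ≤ r s s - r (T s) (T s)) (a b c : E) :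
    0 ≤ (r a a - r (T a) (T a)) + 14 * (r b b - r (T b) (T b)) +
      14 * (r c c - r (T c) (T c)) + 2 * (r a b - r (T a) (T b)) +
      2 * (r a c - r (T a) (T c)) + 8 * (r b c - r (T b) (T c)) := by
  have h1 := h (a + b + c)
  have h2 := h (b + c)
  have h3 := h b
  have h4 := h c
  simp only [map_add, r_add_left, r_add_right] at h1 h2
  linarith [r_comm a b, r_comm (T a) (T b), r_comm a c, r_comm (T a) (T c), r_comm b c,
    r_comm (T b) (T c)]

end forms

/-- The first kernel. -/
def kk : Fin 3 → Fin 3 → ℝ := ![![1, 1, 1], ![1, 4, -2], ![1, -2, 4]]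

/-- The second kernel. -/
def ll : Fin 3 → Fin 3 → ℝ := ![![1, 1, 1], ![1, 14, 4], ![1, 4, 14]]

/-- Positivity of the `l`-Pick form gives a contractive multiplier. -/
lemma multiplier (n : ℕ) (Φ : Fin 3 → V n →L[ℂ] V n)
    (h : ∀ v : Fin 3 → V n, 0 ≤ ∑ x, ∑ y, ll x y *
      (r (v x) (v y) - r (adjoint (Φ x) (v x)) (adjoint (Φ y) (v y)))) :
    IsContractiveMultiplier (fun x y => ((ll x y : ℝ) : ℂ)) Φ := by
  intro H _ _ _ _ hK F
  have hfd : FiniteDimensional ℂ H :=
    FiniteDimensional.of_injective (RKHS.coeCLM ℂ : H →L[ℂ] Fin 3 → V n).toLinearMap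
      RKHS.coeCLM_injective
  let L : (Fin 3 → V n) →ₗ[ℂ] H :=
    { toFun := fun v => ∑ x, RKHS.kerFun H x (v x)
      map_add' := fun v w => by simp [Finset.sum_add_distrib]
      map_smul' := fun c v => by simp [Finset.smul_sum] }
  have hL : ∀ v, L v = ∑ x, RKHS.kerFun H x (v x) := fun v => rfl
  have hsingle : ∀ x (w : V n), L (Pi.single x w) = RKHS.kerFun H x w := by
    intro x w
    rw [hL, Finset.sum_eq_single x]
    · simp
    · intro y _ hy; simp [Pi.single_eq_of_ne hy]
    · simp
  have hnorm : ∀ v, r (L v) (L v) = ∑ x, ∑ y, ll x y * r (v x) (v y) := by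
    intro v
    unfold r
    rw [hL, sum_inner, map_sum]
    refine Finset.sum_congr rfl fun x _ => ?_
    rw [inner_sum, map_sum]
    refine Finset.sum_congr rfl fun y _ => ?_
    rw [RKHS.kerFun_inner, RKHS.kerFun_apply, hK, inner_smul_right]
    simp
  have hsurj : Function.Surjective L := by
    have hd := RKHS.kerFun_dense (𝕜 := ℂ) H (X := Fin 3) (V := V n)
    have hle : Submodule.span ℂ {RKHS.kerFun H x v | (x : Fin 3) (v : V n)} ≤ LinearMap.range L := by
      rw [Submodule.span_le]
      rintro _ ⟨x, v, rfl⟩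
      exact ⟨Pi.single x v, hsingle x v⟩
    have hclosed : IsClosed ((LinearMap.range L : Submodule ℂ H) : Set H) :=
      Submodule.closed_of_finiteDimensional _
    rw [← LinearMap.range_eq_top, ← top_le_iff, ← hd]
    exact Submodule.topologicalClosure_minimal _ hle hclosed
  obtain ⟨g, hg⟩ := L.exists_rightInverse_of_surjective (LinearMap.range_eq_top.mpr hsurj)
  have hg' : ∀ y, L (g y) = y := fun y => LinearMap.congr_fun hg y
  let A : (Fin 3 → V n) →ₗ[ℂ] (Fin 3 → V n) :=
    { toFun := fun v x => adjoint (Φ x) (v x)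
      map_add' := fun v w => by funext x; simp
      map_smul' := fun c v => by funext x; simp }
  have hA : ∀ v, r (L (A v)) (L (A v)) ≤ r (L v) (L v) := by
    intro v
    rw [hnorm, hnorm, ← sub_nonneg, ← Finset.sum_sub_distrib]
    refine le_trans (h v) (le_of_eq ?_)
    refine Finset.sum_congr rfl fun x _ => ?_
    rw [← Finset.sum_sub_distrib]
    refine Finset.sum_congr rfl fun y _ => ?_
    show _ = _ - ll x y * r (adjoint (Φ x) (v x)) (adjoint (Φ y) (v y))
    ring
  let T0 : H →ₗ[ℂ] H := L ∘ₗ A ∘ₗ g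
  have hT0 : ∀ y, ‖T0 y‖ ≤ 1 * ‖y‖ := by
    intro y
    have h1 := hA (g y)
    rw [hg', r_self, r_self] at h1
    rw [one_mul]
    exact (sq_le_sq₀ (norm_nonneg _) (norm_nonneg _)).mp h1
  have hTL : ∀ v, T0 (L v) = L (A v) := by
    intro v
    have h1 := hA (g (L v) - v)
    rw [map_sub L, hg', sub_self, r_zero_left, map_sub A, map_sub L, r_self] at h1
    have h2 : L (A (g (L v))) - L (A v) = 0 := by
      rw [← norm_eq_zero]
      have := norm_nonneg (L (A (g (L v))) - L (A v))
      nlinarith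
    exact sub_eq_zero.mp h2
  let T : H →L[ℂ] H := T0.mkContinuous 1 hT0
  have hTn : ‖T‖ ≤ 1 := LinearMap.mkContinuous_norm_le _ zero_le_one _
  refine ⟨adjoint T F, fun x => ?_, ?_⟩
  · refine ext_inner_left ℂ fun w => ?_
    rw [← RKHS.kerFun_inner, adjoint_inner_right]
    have h1 : T (RKHS.kerFun H x w) = RKHS.kerFun H x (adjoint (Φ x) w) := by
      show T0 (RKHS.kerFun H x w) = _
      rw [← hsingle x w, hTL, ← hsingle x (adjoint (Φ x) w)]
      congr 1
      funext y
      show adjoint (Φ y) ((Pi.single x w : Fin 3 → V n) y) = _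
      by_cases hy : y = x
      · subst hy; simp
      · rw [Pi.single_eq_of_ne hy, Pi.single_eq_of_ne hy, map_zero]
    rw [h1, RKHS.kerFun_inner, adjoint_inner_left]
  · calc ‖adjoint T F‖ ≤ ‖adjoint T‖ * ‖F‖ := le_opNorm _ _
      _ = ‖T‖ * ‖F‖ := by rw [LinearIsometryEquiv.norm_map]
      _ ≤ 1 * ‖F‖ := by gcongr
      _ = ‖F‖ := one_mul _

/-- Pulling back the Pick form along a map of index sets. -/
lemma pull {n : ℕ} (z : Fin n → Fin 3) (W : Fin n → V n →L[ℂ] V n)
    (h : ∀ v : Fin n → V n,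
      0 ≤ ∑ i, ∑ j, ((kk (z i) (z j) : ℝ) : ℂ) * ⟪v i, v j - W i (adjoint (W j) (v j))⟫_ℂ)
    {ι : Type} [Fintype ι] (a : ι → Fin n) (v : ι → V n) :
    0 ≤ ∑ x, ∑ y, kk (z (a x)) (z (a y)) *
      (r (v x) (v y) - r (adjoint (W (a x)) (v x)) (adjoint (W (a y)) (v y))) := by
  classical
  let u : Fin n → V n := fun i => ∑ x, if a x = i then v x else 0
  have h1 := h u
  have h2 : ∑ i, ∑ j, ((kk (z i) (z j) : ℝ) : ℂ) * ⟪u i, u j - W i (adjoint (W j) (u j))⟫_ℂ =
      ∑ x, ∑ y, ((kk (z (a x)) (z (a y)) : ℝ) : ℂ) *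
        ⟪v x, v y - W (a x) (adjoint (W (a y)) (v y))⟫_ℂ := by
    have e1 : ∀ i j, ((kk (z i) (z j) : ℝ) : ℂ) * ⟪u i, u j - W i (adjoint (W j) (u j))⟫_ℂ =
        ∑ x, ∑ y, ((kk (z i) (z j) : ℝ) : ℂ) * ⟪(if a x = i then v x else 0),
          (if a y = j then v y else 0) - W i (adjoint (W j) (if a y = j then v y else 0))⟫_ℂ := by
      intro i j
      show ((kk (z i) (z j) : ℝ) : ℂ) * ⟪∑ x, (if a x = i then v x else 0),
        (∑ y, if a y = j then v y else 0) -
          W i (adjoint (W j) (∑ y, if a y = j then v y else 0))⟫_ℂ = _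
      rw [map_sum, map_sum, ← Finset.sum_sub_distrib, sum_inner, Finset.mul_sum]
      refine Finset.sum_congr rfl fun x _ => ?_
      rw [inner_sum, Finset.mul_sum]
    simp_rw [e1]
    -- move the sums over `x, y` outside
    have e2 : ∀ f : Fin n → Fin n → ι → ι → ℂ,
        ∑ i, ∑ j, ∑ x, ∑ y, f i j x y = ∑ x, ∑ y, ∑ i, ∑ j, f i j x y := by
      intro f
      calc ∑ i, ∑ j, ∑ x, ∑ y, f i j x y = ∑ i, ∑ x, ∑ j, ∑ y, f i j x y := by
            refine Finset.sum_congr rfl fun i _ => Finset.sum_comm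
        _ = ∑ x, ∑ i, ∑ j, ∑ y, f i j x y := Finset.sum_comm
        _ = ∑ x, ∑ i, ∑ y, ∑ j, f i j x y := by
            refine Finset.sum_congr rfl fun x _ => Finset.sum_congr rfl fun i _ => Finset.sum_comm
        _ = ∑ x, ∑ y, ∑ i, ∑ j, f i j x y := by
            refine Finset.sum_congr rfl fun x _ => Finset.sum_comm
    rw [e2]
    refine Finset.sum_congr rfl fun x _ => Finset.sum_congr rfl fun y _ => ?_
    rw [Finset.sum_eq_single (a x), Finset.sum_eq_single (a y)]
    · simp
    · intro j _ hj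
      rw [if_neg (Ne.symm hj)]; simp
    · simp
    · intro i _ hi
      refine Finset.sum_eq_zero fun j _ => ?_
      rw [if_neg (Ne.symm hi)]; simp
    · simp
  rw [h2] at h1
  have h3 := (Complex.le_def.mp h1).1
  rw [Complex.zero_re, Complex.re_sum] at h3
  refine le_trans h3 (le_of_eq ?_)
  refine Finset.sum_congr rfl fun x _ => ?_
  rw [Complex.re_sum]
  refine Finset.sum_congr rfl fun y _ => ?_
  rw [Complex.re_ofReal_mul, inner_sub_right, Complex.sub_re]
  congr 2
  show _ = RCLike.re ⟪_, _⟫_ℂ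
  rw [adjoint_inner_left]
  rfl

lemma kk_diag_pos (x : Fin 3) : 0 < kk x x := by
  fin_cases x <;> simp [kk]

/-- Data at equal points are equal. -/
lemma W_eq {n : ℕ} (z : Fin n → Fin 3) (W : Fin n → V n →L[ℂ] V n)
    (h : ∀ v : Fin n → V n,
      0 ≤ ∑ i, ∑ j, ((kk (z i) (z j) : ℝ) : ℂ) * ⟪v i, v j - W i (adjoint (W j) (v j))⟫_ℂ)
    {i j : Fin n} (hij : z i = z j) : W i = W j := by
  have key : ∀ p, adjoint (W i) p = adjoint (W j) p := by
    intro p
    have h1 := pull z W h (ι := Fin 2) ![i, j] ![p, -p]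
    simp only [Fin.sum_univ_two, Matrix.cons_val_zero, Matrix.cons_val_one, hij, map_neg,
      r_neg_left, r_neg_right] at h1
    have h2 : r (adjoint (W i) p - adjoint (W j) p) (adjoint (W i) p - adjoint (W j) p) ≤ 0 := by
      have hpos := kk_diag_pos (z j)
      simp only [r_sub_left, r_sub_right]
      have h3 : 0 ≤ kk (z j) (z j) * -(r (adjoint (W i) p) (adjoint (W i) p) -
          r (adjoint (W j) p) (adjoint (W i) p) - (r (adjoint (W i) p) (adjoint (W j) p) -
          r (adjoint (W j) p) (adjoint (W j) p))) := by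
        refine le_trans h1 (le_of_eq ?_)
        ring
      have h4 := nonneg_of_mul_nonneg_right h3 hpos
      linarith
    rw [r_self] at h2
    have h3 : ‖adjoint (W i) p - adjoint (W j) p‖ = 0 := by
      have := norm_nonneg (adjoint (W i) p - adjoint (W j) p)
      nlinarith
    exact sub_eq_zero.mp (norm_eq_zero.mp h3)
  have h2 : adjoint (W i) = adjoint (W j) := ContinuousLinearMap.ext key
  exact (adjoint (𝕜 := ℂ)).injective h2

/-- The main extension property. -/
lemma pseudo : CompletePseudoPick (fun x y : Fin 3 => ((kk x y : ℝ) : ℂ))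
    (fun x y => ((ll x y : ℝ) : ℂ)) := by
  intro n hn z W h
  -- it suffices to find a good choice of indices
  suffices hs : ∃ a : Fin 3 → Fin n, (∀ i, z (a (z i)) = z i) ∧
      ∀ v : Fin 3 → V n, 0 ≤ ∑ x, ∑ y, ll x y *
        (r (v x) (v y) - r (adjoint (W (a x)) (v x)) (adjoint (W (a y)) (v y))) by
    obtain ⟨a, ha, hv⟩ := hs
    exact ⟨fun x => W (a x), multiplier n _ hv, fun i => W_eq z W h (ha i)⟩
  have P := @pull n z W h
  by_cases h0 : ∃ i, z i = 0
  · obtain ⟨i0, e0⟩ := h0
    by_cases h1 : ∃ i, z i = 1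
    · obtain ⟨i1, e1⟩ := h1
      by_cases h2 : ∃ i, z i = 2
      · obtain ⟨i2, e2⟩ := h2
        refine ⟨![i0, i1, i2], fun i => ?_, fun v => ?_⟩
        · generalize hx : z i = x
          fin_cases x
          · exact e0
          · exact e1
          · exact e2
        · have key := three (adjoint (W i0)) (adjoint (W i1)) (adjoint (W i2)) (fun v0 v1 v2 => by
            have := P (ι := Fin 3) ![i0, i1, i2] ![v0, v1, v2]
            simp only [Fin.sum_univ_three, Matrix.cons_val, e0, e1, e2, kk] at this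
            linarith [r_comm v0 v1, r_comm v0 v2, r_comm v1 v2,
              r_comm (adjoint (W i0) v0) (adjoint (W i1) v1),
              r_comm (adjoint (W i0) v0) (adjoint (W i2) v2),
              r_comm (adjoint (W i1) v1) (adjoint (W i2) v2)]) (v 0) (v 1) (v 2)
          simp only [Fin.sum_univ_three, Matrix.cons_val, ll]
          linarith [r_comm (v 0) (v 1), r_comm (v 0) (v 2), r_comm (v 1) (v 2),
              r_comm (adjoint (W i0) (v 0)) (adjoint (W i1) (v 1)),
              r_comm (adjoint (W i0) (v 0)) (adjoint (W i2) (v 2)),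
              r_comm (adjoint (W i1) (v 1)) (adjoint (W i2) (v 2))]
      · refine ⟨![i0, i1, i0], fun i => ?_, fun v => ?_⟩
        · generalize hx : z i = x
          fin_cases x
          · exact e0
          · exact e1
          · exact absurd ⟨i, hx⟩ h2
        · have key := two (adjoint (W i0)) (adjoint (W i1)) (fun s u => by
            have := P (ι := Fin 2) ![i0, i1] ![s, u]
            simp only [Fin.sum_univ_two, Matrix.cons_val, e0, e1, kk] at this
            linarith [r_comm s u, r_comm (adjoint (W i0) s) (adjoint (W i1) u)]) (v 0) (v 2) (v 1)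
          simp only [Fin.sum_univ_three, Matrix.cons_val, ll]
          linarith [r_comm (v 0) (v 1), r_comm (v 0) (v 2), r_comm (v 1) (v 2),
              r_comm (adjoint (W i0) (v 0)) (adjoint (W i1) (v 1)),
              r_comm (adjoint (W i0) (v 0)) (adjoint (W i0) (v 2)),
              r_comm (adjoint (W i1) (v 1)) (adjoint (W i0) (v 2))]
    · by_cases h2 : ∃ i, z i = 2
      · obtain ⟨i2, e2⟩ := h2
        refine ⟨![i0, i0, i2], fun i => ?_, fun v => ?_⟩
        · generalize hx : z i = x
          fin_cases x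
          · exact e0
          · exact absurd ⟨i, hx⟩ h1
          · exact e2
        · have key := two (adjoint (W i0)) (adjoint (W i2)) (fun s u => by
            have := P (ι := Fin 2) ![i0, i2] ![s, u]
            simp only [Fin.sum_univ_two, Matrix.cons_val, e0, e2, kk] at this
            linarith [r_comm s u, r_comm (adjoint (W i0) s) (adjoint (W i2) u)]) (v 0) (v 1) (v 2)
          simp only [Fin.sum_univ_three, Matrix.cons_val, ll]
          linarith [r_comm (v 0) (v 1), r_comm (v 0) (v 2), r_comm (v 1) (v 2),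
              r_comm (adjoint (W i0) (v 0)) (adjoint (W i0) (v 1)),
              r_comm (adjoint (W i0) (v 0)) (adjoint (W i2) (v 2)),
              r_comm (adjoint (W i0) (v 1)) (adjoint (W i2) (v 2))]
      · refine ⟨![i0, i0, i0], fun i => ?_, fun v => ?_⟩
        · generalize hx : z i = x
          fin_cases x
          · exact e0
          · exact absurd ⟨i, hx⟩ h1
          · exact absurd ⟨i, hx⟩ h2
        · have key := one (adjoint (W i0)) (fun s => by
            have := P (ι := Fin 1) ![i0] ![s]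
            simp only [Fin.sum_univ_one, Matrix.cons_val, e0, kk] at this
            linarith) (v 0) (v 1) (v 2)
          simp only [Fin.sum_univ_three, Matrix.cons_val, ll]
          linarith [r_comm (v 0) (v 1), r_comm (v 0) (v 2), r_comm (v 1) (v 2),
              r_comm (adjoint (W i0) (v 0)) (adjoint (W i0) (v 1)),
              r_comm (adjoint (W i0) (v 0)) (adjoint (W i0) (v 2)),
              r_comm (adjoint (W i0) (v 1)) (adjoint (W i0) (v 2))]
  · by_cases h1 : ∃ i, z i = 1
    · obtain ⟨i1, e1⟩ := h1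
      by_cases h2 : ∃ i, z i = 2
      · obtain ⟨i2, e2⟩ := h2
        refine ⟨![i1, i1, i2], fun i => ?_, fun v => ?_⟩
        · generalize hx : z i = x
          fin_cases x
          · exact absurd ⟨i, hx⟩ h0
          · exact e1
          · exact e2
        · have key := two (adjoint (W i1)) (adjoint (W i2)) (fun s u => by
            have := P (ι := Fin 2) ![i1, i2] ![s, ((-2:ℝ):ℂ) • u]
            simp only [Fin.sum_univ_two, Matrix.cons_val, e1, e2, kk, map_smul, r_smul_left,
              r_smul_right] at this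
            linarith [r_comm s u, r_comm (adjoint (W i1) s) (adjoint (W i2) u)]) (v 0) (v 1) (v 2)
          simp only [Fin.sum_univ_three, Matrix.cons_val, ll]
          linarith [r_comm (v 0) (v 1), r_comm (v 0) (v 2), r_comm (v 1) (v 2),
              r_comm (adjoint (W i1) (v 0)) (adjoint (W i1) (v 1)),
              r_comm (adjoint (W i1) (v 0)) (adjoint (W i2) (v 2)),
              r_comm (adjoint (W i1) (v 1)) (adjoint (W i2) (v 2))]
      · refine ⟨![i1, i1, i1], fun i => ?_, fun v => ?_⟩
        · generalize hx : z i = x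
          fin_cases x
          · exact absurd ⟨i, hx⟩ h0
          · exact e1
          · exact absurd ⟨i, hx⟩ h2
        · have key := one (adjoint (W i1)) (fun s => by
            have := P (ι := Fin 1) ![i1] ![s]
            simp only [Fin.sum_univ_one, Matrix.cons_val, e1, kk] at this
            linarith) (v 0) (v 1) (v 2)
          simp only [Fin.sum_univ_three, Matrix.cons_val, ll]
          linarith [r_comm (v 0) (v 1), r_comm (v 0) (v 2), r_comm (v 1) (v 2),
              r_comm (adjoint (W i1) (v 0)) (adjoint (W i1) (v 1)),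
              r_comm (adjoint (W i1) (v 0)) (adjoint (W i1) (v 2)),
              r_comm (adjoint (W i1) (v 1)) (adjoint (W i1) (v 2))]
    · have h2 : z ⟨0, hn⟩ = 2 := by
        generalize hx : z ⟨0, hn⟩ = x
        fin_cases x
        · exact absurd ⟨_, hx⟩ h0
        · exact absurd ⟨_, hx⟩ h1
        · rfl
      set i2 : Fin n := ⟨0, hn⟩
      refine ⟨![i2, i2, i2], fun i => ?_, fun v => ?_⟩
      · generalize hx : z i = x
        fin_cases x
        · exact absurd ⟨i, hx⟩ h0
        · exact absurd ⟨i, hx⟩ h1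
        · exact h2
      · have key := one (adjoint (W i2)) (fun s => by
          have := P (ι := Fin 1) ![i2] ![s]
          simp only [Fin.sum_univ_one, Matrix.cons_val, h2, kk] at this
          linarith) (v 0) (v 1) (v 2)
        simp only [Fin.sum_univ_three, Matrix.cons_val, ll]
        linarith [r_comm (v 0) (v 1), r_comm (v 0) (v 2), r_comm (v 1) (v 2),
            r_comm (adjoint (W i2) (v 0)) (adjoint (W i2) (v 1)),
            r_comm (adjoint (W i2) (v 0)) (adjoint (W i2) (v 2)),
            r_comm (adjoint (W i2) (v 1)) (adjoint (W i2) (v 2))]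

/-- There are kernels `k`, `l` on a set of three points with `k` non-vanishing such that `(k, l)`
is complete pseudo-Pick although `l / k` is not a kernel. -/
theorem result : ∃ k l : Fin 3 → Fin 3 → ℂ, IsKernel k ∧ IsKernel l ∧ (∀ x y, k x y ≠ 0) ∧
    CompletePseudoPick k l ∧ ¬ IsKernel (fun x y => l x y / k x y) := by
  refine ⟨fun x y => ((kk x y : ℝ) : ℂ), fun x y => ((ll x y : ℝ) : ℂ), ?_, ?_, ?_, pseudo, ?_⟩
  · intro m z
    let M : Matrix (Fin 3) (Fin 4) ℂ := !![1, 0, 0, 0; 1, 1, 1, 1; 1, -1, -1, -1]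
    have h1 : (M * M.conjTranspose).PosSemidef := Matrix.posSemidef_self_mul_conjTranspose M
    have h2 : (Matrix.of fun i j => ((kk (z i) (z j) : ℝ) : ℂ)) =
        (M * M.conjTranspose).submatrix z z := by
      ext i j
      rw [Matrix.submatrix_apply, Matrix.of_apply]
      generalize z i = x
      generalize z j = y
      fin_cases x <;> fin_cases y <;>
        simp [M, kk, Matrix.mul_apply, Fin.sum_univ_four] <;> norm_num
    rw [h2]
    exact h1.submatrix z
  · intro m z
    let M : Matrix (Fin 3) (Fin 8) ℂ :=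
      !![1, 0, 0, 0, 0, 0, 0, 0; 1, 1, 1, 1, 3, 1, 0, 0; 1, 1, 1, 1, 0, 0, 3, 1]
    have h1 : (M * M.conjTranspose).PosSemidef := Matrix.posSemidef_self_mul_conjTranspose M
    have h2 : (Matrix.of fun i j => ((ll (z i) (z j) : ℝ) : ℂ)) =
        (M * M.conjTranspose).submatrix z z := by
      ext i j
      rw [Matrix.submatrix_apply, Matrix.of_apply]
      generalize z i = x
      generalize z j = y
      fin_cases x <;> fin_cases y <;>
        simp [M, ll, Matrix.mul_apply, Fin.sum_univ_eight] <;>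
        (try rw [map_ofNat (starRingEnd ℂ) 3]) <;> norm_num
    rw [h2]
    exact h1.submatrix z
  · intro x y
    fin_cases x <;> fin_cases y <;> simp [kk]
  · intro hK
    have h1 := (hK 3 id).dotProduct_mulVec_nonneg ![-2, 1, 1]
    have h2 := (Complex.le_def.mp h1).1
    have h3 : (star ![(-2:ℂ), 1, 1] ⬝ᵥ (Matrix.of fun i j : Fin 3 =>
        ((ll (id i) (id j) : ℝ) : ℂ) / ((kk (id i) (id j) : ℝ) : ℂ)).mulVec ![-2, 1, 1]) = -1 := by
      simp only [dotProduct, Matrix.mulVec, Fin.sum_univ_three, Matrix.of_apply, Pi.star_apply,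
        id, Matrix.cons_val, kk, ll]
      norm_num
    rw [h3] at h2
    norm_num at h2

end Pool.Agent.Results.MP_cbd977_an.ThreePoints
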